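import Pool.Agent.H29.MED2

set_option autoImplicit false

namespace Pool.Agent.Results.MP_6a83a4_lc.ClosedMED

/-- There is a family of permutations of `ℕ` which is closed in Baire space `ℕ → ℕ`
(product of discrete topologies), eventually different, and maximal: every permutation
agrees with some member at infinitely many arguments. -/
theorem result : ∃ F : Set (ℕ → ℕ), IsClosed F ∧ (∀ f ∈ F, Function.Bijective f) ∧
    (∀ f ∈ F, ∀ g ∈ F, f ≠ g → {n | f n = g n}.Finite) ∧
    ∀ g : ℕ → ℕ, Function.Bijective g → ∃ f ∈ F, {n | f n = g n}.Infinite :=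
  Pool.Agent.H29.MED.main

end Pool.Agent.Results.MP_6a83a4_lc.ClosedMED
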